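import Mathlib

/-!
CR, K1 (MP_ad1693_nt). Karamata's Tauberian theorem for a nonnegative function, Mathlib only.

Proof. `LL f φ s = s ∫ f(t) e^{-st} φ(e^{-st}) dt` tends to `c ∫_0^1 φ` for monomials, polynomials and (Weierstrass) continuous `φ`; then
continuous functions between `1_{[b₂,1]}(x) / x` and `1_{[b₁,1]}(x) / x`.
(helper91)
-/

set_option autoImplicit false

open Filter Topology MeasureTheory Set

namespace Pool.Agent.Helper16.CR

private noncomputable def LL (f φ : ℝ → ℝ) (s : ℝ) : ℝ :=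
  s * ∫ t in Ioi (0 : ℝ), f t * Real.exp (-s * t) * φ (Real.exp (-s * t))

private lemma exp_mem {s t : ℝ} (hs : 0 < s) (ht : t ∈ Ioi (0 : ℝ)) :
    Real.exp (-s * t) ∈ Icc (0 : ℝ) 1 := by
  refine ⟨(Real.exp_pos _).le, ?_⟩
  rw [Real.exp_le_one_iff]
  have : 0 < s * t := mul_pos hs ht
  linarith

private lemma ll_int {f : ℝ → ℝ} (hf0 : ∀ t, 0 ≤ f t) (hfm : Measurable f)
    (hint : ∀ s : ℝ, 0 < s → IntegrableOn (fun t => f t * Real.exp (-s * t)) (Ioi (0 : ℝ)))
    {φ : ℝ → ℝ} (hφ : Continuous φ) {s : ℝ} (hs : 0 < s) :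
    IntegrableOn (fun t => f t * Real.exp (-s * t) * φ (Real.exp (-s * t))) (Ioi (0 : ℝ)) := by
  obtain ⟨M, hM⟩ := isCompact_Icc.exists_bound_of_continuousOn (s := Icc (0 : ℝ) 1) hφ.continuousOn
  have hm : Measurable fun t : ℝ => Real.exp (-s * t) := by fun_prop
  refine Integrable.mono' ((hint s hs).const_mul M)
    ((hfm.mul hm).mul (hφ.measurable.comp hm)).aestronglyMeasurable ?_
  rw [ae_restrict_iff' measurableSet_Ioi]
  refine Eventually.of_forall fun t ht => ?_
  have h1 := hM _ (exp_mem hs ht)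
  have h2 : 0 ≤ f t * Real.exp (-s * t) := mul_nonneg (hf0 t) (Real.exp_pos _).le
  rw [norm_mul, Real.norm_eq_abs (f t * _), abs_of_nonneg h2, mul_comm M]
  exact mul_le_mul_of_nonneg_left h1 h2

private lemma ll_poly {f : ℝ → ℝ} (hf0 : ∀ t, 0 ≤ f t) (hfm : Measurable f) (c : ℝ)
    (hint : ∀ s : ℝ, 0 < s → IntegrableOn (fun t => f t * Real.exp (-s * t)) (Ioi (0 : ℝ)))
    (hlim : Tendsto (fun s : ℝ => s * ∫ t in Ioi (0 : ℝ), f t * Real.exp (-s * t)) (𝓝[>] 0) (𝓝 c))
    (p : Polynomial ℝ) :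
    Tendsto (LL f fun x => p.eval x) (𝓝[>] 0) (𝓝 (c * ∫ x in (0 : ℝ)..1, p.eval x)) := by
  induction p using Polynomial.induction_on' with
  | add p q hp hq =>
    have h1 : c * ∫ x in (0 : ℝ)..1, (p + q).eval x =
        (c * ∫ x in (0 : ℝ)..1, p.eval x) + c * ∫ x in (0 : ℝ)..1, q.eval x := by
      rw [← mul_add, ← intervalIntegral.integral_add (p.continuous.intervalIntegrable _ _)
        (q.continuous.intervalIntegrable _ _)]
      simp only [Polynomial.eval_add]
    rw [h1]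
    refine (hp.add hq).congr' ?_
    filter_upwards [self_mem_nhdsWithin] with s hs
    have hs' : 0 < s := hs
    simp only [LL]
    rw [← mul_add, ← integral_add (ll_int hf0 hfm hint p.continuous hs')
      (ll_int hf0 hfm hint q.continuous hs')]
    congr 1
    refine integral_congr_ae (Eventually.of_forall fun t => ?_)
    simp only [Polynomial.eval_add]
    ring
  | monomial n a =>
    have hn : (0 : ℝ) < (n : ℝ) + 1 := by positivity
    have h1 : c * ∫ x in (0 : ℝ)..1, (Polynomial.monomial n a).eval x = a / (n + 1) * c := by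
      simp only [Polynomial.eval_monomial]
      rw [intervalIntegral.integral_const_mul, integral_pow]
      simp only [one_pow, ne_eq, Nat.add_eq_zero_iff, one_ne_zero, and_false, not_false_eq_true,
        zero_pow, sub_zero]
      ring
    rw [h1]
    have h2 : Tendsto (fun s : ℝ => ((n : ℝ) + 1) * s) (𝓝[>] 0) (𝓝[>] 0) := by
      refine tendsto_nhdsWithin_of_tendsto_nhds_of_eventually_within _ ?_ ?_
      · have : Tendsto (fun s : ℝ => ((n : ℝ) + 1) * s) (𝓝 0) (𝓝 (((n : ℝ) + 1) * 0)) :=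
          (continuous_const.mul continuous_id).tendsto 0
        rw [mul_zero] at this
        exact this.mono_left nhdsWithin_le_nhds
      · filter_upwards [self_mem_nhdsWithin] with s hs
        exact mul_pos hn hs
    refine ((hlim.comp h2).const_mul (a / ((n : ℝ) + 1))).congr' ?_
    filter_upwards [self_mem_nhdsWithin] with s hs
    simp only [LL, Function.comp_def, Polynomial.eval_monomial]
    have h3 : ∀ t : ℝ, f t * Real.exp (-s * t) * (a * Real.exp (-s * t) ^ n) =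
        a * (f t * Real.exp (-(((n : ℝ) + 1) * s) * t)) := by
      intro t
      have h4 : Real.exp (-(((n : ℝ) + 1) * s) * t) = Real.exp (-s * t) * Real.exp (-s * t) ^ n := by
        rw [← Real.exp_nat_mul, ← Real.exp_add]
        congr 1
        ring
      rw [h4]
      ring
    simp_rw [h3]
    rw [integral_const_mul]
    field_simp

private lemma ll_cont {f : ℝ → ℝ} (hf0 : ∀ t, 0 ≤ f t) (hfm : Measurable f) (c : ℝ)
    (hint : ∀ s : ℝ, 0 < s → IntegrableOn (fun t => f t * Real.exp (-s * t)) (Ioi (0 : ℝ)))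
    (hlim : Tendsto (fun s : ℝ => s * ∫ t in Ioi (0 : ℝ), f t * Real.exp (-s * t)) (𝓝[>] 0) (𝓝 c))
    (hc : 0 ≤ c) {φ : ℝ → ℝ} (hφ : Continuous φ) :
    Tendsto (LL f φ) (𝓝[>] 0) (𝓝 (c * ∫ x in (0 : ℝ)..1, φ x)) := by
  rw [Metric.tendsto_nhds]
  intro ε hε
  obtain ⟨δ, hδ⟩ : ∃ δ : ℝ, δ = ε / (4 * (c + 1)) := ⟨_, rfl⟩
  have hδ0 : 0 < δ := by rw [hδ]; positivity
  have hδc : δ * (c + 1) = ε / 4 := by
    rw [hδ]
    field_simp
  obtain ⟨p, hp⟩ := exists_polynomial_near_of_continuousOn 0 1 φ hφ.continuousOn δ hδ0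
  have hP := (Metric.tendsto_nhds.1 (ll_poly hf0 hfm c hint hlim p)) (ε / 4) (by positivity)
  have hL := (Metric.tendsto_nhds.1 hlim) 1 one_pos
  filter_upwards [hP, hL, self_mem_nhdsWithin] with s h1 h2 hs
  have hs' : 0 < s := hs
  rw [Real.dist_eq] at h1 h2 ⊢
  have e1 : |LL f φ s - LL f (fun x => p.eval x) s| ≤ δ * (c + 1) := by
    have i1 := ll_int hf0 hfm hint hφ hs'
    have i2 := ll_int hf0 hfm hint p.continuous hs'
    simp only [LL]
    rw [← mul_sub, ← integral_sub i1 i2, abs_mul, abs_of_pos hs']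
    have e2 : |∫ t in Ioi (0 : ℝ), (f t * Real.exp (-s * t) * φ (Real.exp (-s * t)) -
        f t * Real.exp (-s * t) * p.eval (Real.exp (-s * t)))| ≤
        ∫ t in Ioi (0 : ℝ), δ * (f t * Real.exp (-s * t)) := by
      refine (abs_integral_le_integral_abs).trans ?_
      refine setIntegral_mono_on (i1.sub i2).abs ((hint s hs').const_mul δ) measurableSet_Ioi ?_
      intro t ht
      have h5 := hp _ (exp_mem hs' ht)
      have h6 : 0 ≤ f t * Real.exp (-s * t) := mul_nonneg (hf0 t) (Real.exp_pos _).le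
      rw [← mul_sub, abs_mul, abs_of_nonneg h6, mul_comm δ, abs_sub_comm]
      exact mul_le_mul_of_nonneg_left h5.le h6
    rw [integral_const_mul] at e2
    have h7 : s * ∫ t in Ioi (0 : ℝ), f t * Real.exp (-s * t) ≤ c + 1 := by
      have := (abs_lt.1 h2).2
      linarith
    calc s * |∫ t in Ioi (0 : ℝ), (f t * Real.exp (-s * t) * φ (Real.exp (-s * t)) -
          f t * Real.exp (-s * t) * p.eval (Real.exp (-s * t)))|
        ≤ s * (δ * ∫ t in Ioi (0 : ℝ), f t * Real.exp (-s * t)) :=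
          mul_le_mul_of_nonneg_left e2 hs'.le
      _ = δ * (s * ∫ t in Ioi (0 : ℝ), f t * Real.exp (-s * t)) := by ring
      _ ≤ δ * (c + 1) := mul_le_mul_of_nonneg_left h7 hδ0.le
  have e3 : |(∫ x in (0 : ℝ)..1, p.eval x) - ∫ x in (0 : ℝ)..1, φ x| ≤ δ := by
    rw [← intervalIntegral.integral_sub (p.continuous.intervalIntegrable _ _)
      (hφ.intervalIntegrable _ _)]
    have h8 := intervalIntegral.norm_integral_le_of_norm_le_const (a := (0 : ℝ)) (b := 1)
      (f := fun x => p.eval x - φ x) (C := δ) (fun x hx => by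
        rw [uIoc_of_le zero_le_one] at hx
        rw [Real.norm_eq_abs]
        exact (hp x ⟨hx.1.le, hx.2⟩).le)
    rw [Real.norm_eq_abs] at h8
    simpa using h8
  have e4 : |c * (∫ x in (0 : ℝ)..1, p.eval x) - c * ∫ x in (0 : ℝ)..1, φ x| ≤ c * δ := by
    rw [← mul_sub, abs_mul, abs_of_nonneg hc]
    exact mul_le_mul_of_nonneg_left e3 hc
  have e5 : c * δ ≤ ε / 4 := by nlinarith
  calc |LL f φ s - c * ∫ x in (0 : ℝ)..1, φ x|
      = |(LL f φ s - LL f (fun x => p.eval x) s) +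
          ((LL f (fun x => p.eval x) s - c * ∫ x in (0 : ℝ)..1, p.eval x) +
          (c * (∫ x in (0 : ℝ)..1, p.eval x) - c * ∫ x in (0 : ℝ)..1, φ x))| := by
        congr 1; ring
    _ ≤ |LL f φ s - LL f (fun x => p.eval x) s| +
          (|LL f (fun x => p.eval x) s - c * ∫ x in (0 : ℝ)..1, p.eval x| +
          |c * (∫ x in (0 : ℝ)..1, p.eval x) - c * ∫ x in (0 : ℝ)..1, φ x|) :=
        (abs_add_le _ _).trans (add_le_add_right (abs_add_le _ _) _)
    _ < ε := by linarith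

/-- A continuous function between `1_{[b₂,1]}(x) / x` and `1_{[b₁,1]}(x) / x`. -/
private lemma exists_phi (b₁ b₂ : ℝ) (h1 : 0 < b₁) (h2 : b₁ < b₂) (h3 : b₂ < 1) :
    ∃ φ : ℝ → ℝ, Continuous φ ∧ (∀ x, 0 ≤ φ x) ∧ (∀ x, x ≤ b₁ → φ x = 0) ∧
      (∀ x, b₂ ≤ x → φ x = 1 / x) ∧ (∀ x, 0 < x → φ x ≤ 1 / x) ∧
      -Real.log b₂ ≤ ∫ x in (0 : ℝ)..1, φ x ∧ (∫ x in (0 : ℝ)..1, φ x) ≤ -Real.log b₁ := by
  have hb : 0 < b₂ - b₁ := by linarith
  obtain ⟨φ, hφ⟩ : ∃ φ : ℝ → ℝ, φ = fun x => max 0 (min 1 ((x - b₁) / (b₂ - b₁))) / max x b₁ :=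
    ⟨_, rfl⟩
  have hm : ∀ x : ℝ, 0 < max x b₁ := fun x => lt_max_of_lt_right h1
  have hr0 : ∀ x : ℝ, 0 ≤ max 0 (min 1 ((x - b₁) / (b₂ - b₁))) := fun x => le_max_left _ _
  have hr1 : ∀ x : ℝ, max 0 (min 1 ((x - b₁) / (b₂ - b₁))) ≤ 1 :=
    fun x => max_le zero_le_one (min_le_left _ _)
  have hc : Continuous φ := by
    rw [hφ]
    refine Continuous.div (by fun_prop) (by fun_prop) fun x => (hm x).ne'
  have p0 : ∀ x, 0 ≤ φ x := fun x => by rw [hφ]; exact div_nonneg (hr0 x) (hm x).le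
  have p1 : ∀ x, x ≤ b₁ → φ x = 0 := by
    intro x hx
    have : (x - b₁) / (b₂ - b₁) ≤ 0 := div_nonpos_of_nonpos_of_nonneg (by linarith) hb.le
    rw [hφ]
    simp only
    rw [max_eq_left ((min_le_right _ _).trans this), zero_div]
  have p2 : ∀ x, b₂ ≤ x → φ x = 1 / x := by
    intro x hx
    have : 1 ≤ (x - b₁) / (b₂ - b₁) := by rw [le_div_iff₀ hb]; linarith
    rw [hφ]
    simp only
    rw [min_eq_left this, max_eq_right zero_le_one, max_eq_left (by linarith)]
  have p3 : ∀ x, 0 < x → φ x ≤ 1 / x := by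
    intro x hx
    rw [hφ]
    simp only
    exact div_le_div₀ zero_le_one (hr1 x) hx (le_max_left _ _)
  have hi : ∀ a b : ℝ, IntervalIntegrable φ volume a b := fun a b => hc.intervalIntegrable a b
  have i1 : (∫ x in b₂..1, φ x) = -Real.log b₂ := by
    have : (∫ x in b₂..1, φ x) = ∫ x in b₂..1, 1 / x := by
      apply intervalIntegral.integral_congr
      intro x hx
      rw [uIcc_of_le h3.le] at hx
      exact p2 x hx.1
    rw [this, integral_one_div_of_pos (by linarith) one_pos, Real.log_div one_ne_zero (by linarith),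
      Real.log_one, zero_sub]
  have i2 : 0 ≤ ∫ x in (0 : ℝ)..b₂, φ x :=
    intervalIntegral.integral_nonneg (by linarith) fun x _ => p0 x
  have i3 : (∫ x in (0 : ℝ)..b₁, φ x) = 0 := by
    have : (∫ x in (0 : ℝ)..b₁, φ x) = ∫ x in (0 : ℝ)..b₁, (0 : ℝ) := by
      apply intervalIntegral.integral_congr
      intro x hx
      rw [uIcc_of_le h1.le] at hx
      exact p1 x hx.2
    rw [this, intervalIntegral.integral_zero]
  have i4 : (∫ x in b₁..1, φ x) ≤ -Real.log b₁ := by
    have hle : b₁ ≤ 1 := by linarith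
    have : (∫ x in b₁..1, φ x) ≤ ∫ x in b₁..1, 1 / x := by
      apply intervalIntegral.integral_mono_on hle (hi _ _)
      · apply ContinuousOn.intervalIntegrable
        apply ContinuousOn.div continuousOn_const continuousOn_id
        intro x hx
        rw [uIcc_of_le hle] at hx
        simp only [id]
        linarith [hx.1]
      · intro x hx
        exact p3 x (by linarith [hx.1])
    refine this.trans (le_of_eq ?_)
    rw [integral_one_div_of_pos h1 one_pos, Real.log_div one_ne_zero h1.ne', Real.log_one, zero_sub]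
  refine ⟨φ, hc, p0, p1, p2, p3, ?_, ?_⟩
  · rw [← intervalIntegral.integral_add_adjacent_intervals (hi 0 b₂) (hi b₂ 1), i1]
    linarith
  · rw [← intervalIntegral.integral_add_adjacent_intervals (hi 0 b₁) (hi b₁ 1), i3, zero_add]
    exact i4

/-- Karamata's Tauberian theorem for a nonnegative function. -/
theorem karamata {f : ℝ → ℝ} (hf0 : ∀ t, 0 ≤ f t) (hfm : Measurable f) (c : ℝ)
    (hint : ∀ s : ℝ, 0 < s → IntegrableOn (fun t => f t * Real.exp (-s * t)) (Ioi (0 : ℝ)))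
    (hlim : Tendsto (fun s : ℝ => s * ∫ t in Ioi (0 : ℝ), f t * Real.exp (-s * t)) (𝓝[>] 0) (𝓝 c)) :
    Tendsto (fun T : ℝ => (1 / T) * ∫ t in Ioc 0 T, f t) atTop (𝓝 c) := by
  have hc : 0 ≤ c := by
    refine ge_of_tendsto hlim ?_
    filter_upwards [self_mem_nhdsWithin] with s hs
    have hs' : 0 < s := hs
    exact mul_nonneg hs'.le (setIntegral_nonneg measurableSet_Ioi fun t _ =>
      mul_nonneg (hf0 t) (Real.exp_pos _).le)
  have hinv : Tendsto (fun T : ℝ => 1 / T) atTop (𝓝[>] 0) := by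
    simp only [one_div]
    exact tendsto_inv_atTop_nhdsGT_zero
  have hfi : ∀ T : ℝ, 0 < T → IntegrableOn f (Ioc 0 T) := by
    intro T hT
    have h1 := (hint (1 / T) (by positivity)).mono_set (Ioc_subset_Ioi_self : Ioc 0 T ⊆ Ioi 0)
    refine Integrable.mono' (h1.const_mul (Real.exp 1)) hfm.aestronglyMeasurable ?_
    rw [ae_restrict_iff' measurableSet_Ioc]
    refine Eventually.of_forall fun t ht => ?_
    rw [Real.norm_eq_abs, abs_of_nonneg (hf0 t)]
    have h2 : 1 ≤ Real.exp 1 * Real.exp (-(1 / T) * t) := by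
      rw [← Real.exp_add, Real.one_le_exp_iff]
      have : 1 / T * t ≤ 1 := by
        rw [one_div, inv_mul_le_iff₀ hT, mul_one]
        exact ht.2
      linarith
    calc f t = f t * 1 := (mul_one _).symm
      _ ≤ f t * (Real.exp 1 * Real.exp (-(1 / T) * t)) := mul_le_mul_of_nonneg_left h2 (hf0 t)
      _ = _ := by ring
  rw [Metric.tendsto_nhds]
  intro ε hε
  obtain ⟨δ, hδ0, hδ1, hδc⟩ : ∃ δ : ℝ, 0 < δ ∧ δ < 1 ∧ c * δ ≤ ε / 4 := by
    refine ⟨min (1 / 2) (ε / (4 * (c + 1))), lt_min (by norm_num) (by positivity),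
      (min_le_left _ _).trans_lt (by norm_num), ?_⟩
    have h1 : c * min (1 / 2) (ε / (4 * (c + 1))) ≤ (c + 1) * (ε / (4 * (c + 1))) :=
      mul_le_mul (by linarith) (min_le_right _ _) (by positivity) (by linarith)
    refine h1.trans (le_of_eq ?_)
    field_simp
  -- upper
  obtain ⟨φ, hφc, hφ0, hφ1, hφ2, hφ3, -, hφi⟩ := exists_phi (Real.exp (-(1 + δ))) (Real.exp (-1))
    (Real.exp_pos _) (by rw [Real.exp_lt_exp]; linarith)
    (by rw [Real.exp_lt_one_iff]; norm_num)
  rw [Real.log_exp, neg_neg] at hφi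
  have hU := (Metric.tendsto_nhds.1 ((ll_cont hf0 hfm c hint hlim hc hφc).comp hinv)) (ε / 4)
    (by positivity)
  -- lower
  obtain ⟨ψ, hψc, hψ0, hψ1, hψ2, hψ3, hψi, -⟩ := exists_phi (Real.exp (-1)) (Real.exp (-(1 - δ)))
    (Real.exp_pos _) (by rw [Real.exp_lt_exp]; linarith)
    (by rw [Real.exp_lt_one_iff]; linarith)
  rw [Real.log_exp, neg_neg] at hψi
  have hD := (Metric.tendsto_nhds.1 ((ll_cont hf0 hfm c hint hlim hc hψc).comp hinv)) (ε / 4)
    (by positivity)
  filter_upwards [hU, hD, eventually_gt_atTop (0 : ℝ)] with T h1 h2 hT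
  simp only [Function.comp_def] at h1 h2
  rw [Real.dist_eq] at h1 h2 ⊢
  have hs : 0 < 1 / T := by positivity
  have hle : ∀ t, t ≤ T ↔ Real.exp (-1) ≤ Real.exp (-(1 / T) * t) := by
    intro t
    rw [Real.exp_le_exp, one_div, neg_mul, neg_le_neg_iff, inv_mul_le_iff₀ hT, mul_one]
  have hsplit : Ioi (0 : ℝ) = Ioc 0 T ∪ Ioi T := (Ioc_union_Ioi_eq_Ioi hT.le).symm
  have hup : (1 / T) * ∫ t in Ioc 0 T, f t ≤ LL f φ (1 / T) := by
    simp only [LL]
    refine mul_le_mul_of_nonneg_left ?_ hs.le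
    have i1 := ll_int hf0 hfm hint hφc hs
    have e1 : ∫ t in Ioc 0 T, f t = ∫ t in Ioc 0 T,
        f t * Real.exp (-(1 / T) * t) * φ (Real.exp (-(1 / T) * t)) := by
      refine setIntegral_congr_fun measurableSet_Ioc fun t ht => ?_
      show f t = f t * Real.exp (-(1 / T) * t) * φ (Real.exp (-(1 / T) * t))
      rw [hφ2 _ ((hle t).1 ht.2)]
      have := Real.exp_pos (-(1 / T) * t)
      field_simp
    rw [e1]
    refine setIntegral_mono_set i1 ?_ Ioc_subset_Ioi_self.eventuallyLE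
    exact Eventually.of_forall fun t =>
      mul_nonneg (mul_nonneg (hf0 t) (Real.exp_pos _).le) (hφ0 _)
  have hlow : LL f ψ (1 / T) ≤ (1 / T) * ∫ t in Ioc 0 T, f t := by
    simp only [LL]
    refine mul_le_mul_of_nonneg_left ?_ hs.le
    have i1 := ll_int hf0 hfm hint hψc hs
    have hdis : Disjoint (Ioc (0 : ℝ) T) (Ioi T) :=
      Set.disjoint_left.2 fun t ht1 ht2 => absurd ht1.2 (not_le.2 ht2)
    rw [hsplit] at i1 ⊢
    rw [setIntegral_union hdis measurableSet_Ioi i1.left_of_union i1.right_of_union]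
    have e2 : ∫ t in Ioi T, f t * Real.exp (-(1 / T) * t) * ψ (Real.exp (-(1 / T) * t)) = 0 := by
      refine setIntegral_eq_zero_of_forall_eq_zero fun t ht => ?_
      have h3 : Real.exp (-(1 / T) * t) ≤ Real.exp (-1) := by
        by_contra hcon
        exact absurd ((hle t).2 (not_le.1 hcon).le) (not_le.2 ht)
      rw [hψ1 _ h3, mul_zero]
    rw [e2, add_zero]
    refine setIntegral_mono_on i1.left_of_union (hfi T hT) measurableSet_Ioc fun t ht => ?_
    have h4 := Real.exp_pos (-(1 / T) * t)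
    calc f t * Real.exp (-(1 / T) * t) * ψ (Real.exp (-(1 / T) * t))
        ≤ f t * Real.exp (-(1 / T) * t) * (1 / Real.exp (-(1 / T) * t)) :=
          mul_le_mul_of_nonneg_left (hψ3 _ h4) (mul_nonneg (hf0 t) h4.le)
      _ = f t := by field_simp
  have hU2 : c * (∫ x in (0 : ℝ)..1, φ x) ≤ c * (1 + δ) := mul_le_mul_of_nonneg_left hφi hc
  have hD2 : c * (1 - δ) ≤ c * (∫ x in (0 : ℝ)..1, ψ x) := mul_le_mul_of_nonneg_left hψi hc
  rw [abs_lt] at h1 h2 ⊢
  constructor
  · linarith [h2.1]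
  · linarith [h1.2]

end Pool.Agent.Helper16.CR
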